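import Pool.Agent.Y150.KN.Stm3

/-!
# Polarizations: hard Lefschetz in degree one and the Riemann form (`S_av2`)
-/

set_option autoImplicit false

open CategoryTheory AlgebraicGeometry

namespace Pool.Agent.Y149.KN

universe u v w

open Pool.Agent.H914 VarClass Obj Pool.Agent.Y150.KN

/-- A family of subspaces of an independent family with the same sum is equal to it. -/
lemma eq_of_iSup {K : Type u} {A : Type v} [Ring K] [AddCommGroup A] [Module K A]
    (G D : ℕ → Submodule K A) (hG : iSupIndep G) (hD : ∀ n, D n ≤ G n) (htop : ⨆ n, D n = ⊤)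
    (n : ℕ) : D n = G n := by
  have h1 := hG n
  refine eq_of_le_of_inf_le_of_le_sup (z := ⨆ j, ⨆ (_ : j ≠ n), G j) (hD n) ?_ ?_
  · rw [h1.eq_bot]; exact bot_le
  · refine le_trans le_top ?_
    rw [← htop]
    refine iSup_le fun j => ?_
    by_cases hj : j = n
    · subst hj; exact le_sup_left
    · exact le_trans (hD j) (le_trans (le_iSup₂_of_le j hj le_rfl) le_sup_right)

section

variable {k : Type u} [Field k] {𝒱 : VarClass k} {ops : CycleOps 𝒱} (W : Coh.{u, v} ops)
  {X : 𝒱.Obj} (m : X.prod X ⟶ X)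

lemma pow_le_gr (n : ℕ) : (W.gr X 1) ^ n ≤ W.gr X n := by
  induction n with
  | zero =>
    rw [pow_zero, Submodule.one_eq_span, Submodule.span_le]
    rintro x rfl
    exact W.one_mem X
  | succ n ih =>
    rw [pow_succ, Submodule.mul_le]
    intro a ha b hb
    exact W.mul_mem (ih ha) hb

lemma mul_mem_iSup_pow {x y : W.H X} (hx : x ∈ ⨆ n : ℕ, (W.gr X 1) ^ n)
    (hy : y ∈ ⨆ n : ℕ, (W.gr X 1) ^ n) : x * y ∈ ⨆ n : ℕ, (W.gr X 1) ^ n := by
  induction hx using Submodule.iSup_induction' with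
  | mem i a ha =>
    induction hy using Submodule.iSup_induction' with
    | mem j b hb =>
      refine Submodule.mem_iSup_of_mem (i + j) ?_
      rw [pow_add]
      exact Submodule.mul_mem_mul ha hb
    | zero => rw [mul_zero]; exact Submodule.zero_mem _
    | add b b' _ _ hb hb' => rw [mul_add]; exact Submodule.add_mem _ hb hb'
  | zero => rw [zero_mul]; exact Submodule.zero_mem _
  | add b b' _ _ hb hb' => rw [add_mul]; exact Submodule.add_mem _ hb hb'

lemma iSup_pow_eq_top (hgen : Algebra.adjoin W.K (W.gr X 1 : Set (W.H X)) = ⊤) :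
    ⨆ n : ℕ, (W.gr X 1) ^ n = ⊤ := by
  rw [eq_top_iff]
  intro z _
  have hz : z ∈ Algebra.adjoin W.K (W.gr X 1 : Set (W.H X)) := by rw [hgen]; trivial
  induction hz using Algebra.adjoin_induction with
  | mem x hx =>
    refine Submodule.mem_iSup_of_mem 1 ?_
    rw [pow_one]; exact hx
  | algebraMap r =>
    refine Submodule.mem_iSup_of_mem 0 ?_
    rw [pow_zero]
    exact Submodule.algebraMap_mem r
  | add x y _ _ hx hy => exact Submodule.add_mem _ (hx trivial) (hy trivial)
  | mul x y _ _ hx hy => exact mul_mem_iSup_pow W (hx trivial) (hy trivial)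

/-- The elements of degree `n` are sums of products of `n` elements of degree one. -/
lemma pow_eq_gr (hgen : Algebra.adjoin W.K (W.gr X 1 : Set (W.H X)) = ⊤) (n : ℕ) :
    (W.gr X 1) ^ n = W.gr X n :=
  eq_of_iSup _ _ (W.isInternal X).submodule_iSupIndep (pow_le_gr W) (iSup_pow_eq_top W hgen) n

/-- Induction for elements of degree two. -/
lemma gr_two_induction (hgen : Algebra.adjoin W.K (W.gr X 1 : Set (W.H X)) = ⊤)
    {P : W.H X → Prop} (hmul : ∀ a ∈ W.gr X 1, ∀ b ∈ W.gr X 1, P (a * b))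
    (hadd : ∀ a b, P a → P b → P (a + b)) {ξ : W.H X} (hξ : ξ ∈ W.gr X 2) : P ξ := by
  rw [← pow_eq_gr W hgen 2, pow_two] at hξ
  exact Submodule.mul_induction_on hξ hmul hadd

/-- (A) -/
lemma map_mul_snd (hm : ∀ v ∈ W.gr X 1, W.map m v = W.map (fst X X) v + W.map (snd X X) v)
    (hgen : Algebra.adjoin W.K (W.gr X 1 : Set (W.H X)) = ⊤)
    {u : W.H X} (hu : u ∈ W.gr X (2 * X.dim)) (z : W.H X) :
    W.map m z * W.map (snd X X) u = W.map (fst X X) z * W.map (snd X X) u := by
  have hz : z ∈ Algebra.adjoin W.K (W.gr X 1 : Set (W.H X)) := by rw [hgen]; trivial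
  have hc : ∀ y, W.map (snd X X) u * y = y * W.map (snd X X) u := fun y =>
    W.even_comm (W.map_mem (snd X X) hu) y
  induction hz using Algebra.adjoin_induction with
  | mem x hx =>
    have h0 : x * u = 0 := by
      have h1 := W.mul_mem hx hu
      rw [W.gr_eq_bot X _ (by omega), Submodule.mem_bot] at h1
      exact h1
    rw [hm x hx, add_mul, ← _root_.map_mul (W.map (snd X X)), h0, _root_.map_zero, add_zero]
  | algebraMap r => rw [AlgHom.commutes, AlgHom.commutes]
  | add x y _ _ hx hy => rw [_root_.map_add, _root_.map_add, add_mul, add_mul, hx, hy]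
  | mul x y _ _ hx hy =>
    rw [_root_.map_mul, _root_.map_mul, mul_assoc, hy, ← hc, ← mul_assoc, hx, mul_assoc, hc,
      ← mul_assoc]

/-- The contraction. -/
noncomputable def iota (w : W.H X) : W.H X →ₗ[W.K] W.H X :=
  W.push (fst X X) ∘ₗ LinearMap.mulRight W.K (W.map (snd X X) w) ∘ₗ (W.map m).toLinearMap

lemma iota_apply (w z : W.H X) :
    iota W m w z = W.push (fst X X) (W.map m z * W.map (snd X X) w) := rfl

/-- (B) -/
lemma iota_one_mul (hm : ∀ v ∈ W.gr X 1, W.map m v = W.map (fst X X) v + W.map (snd X X) v)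
    (hgen : Algebra.adjoin W.K (W.gr X 1 : Set (W.H X)) = ⊤) (hd : 0 < X.dim)
    {w : W.H X} (hw : w ∈ W.gr X (2 * X.dim - 1)) {v : W.H X} (hv : v ∈ W.gr X 1) {j : ℕ}
    {z : W.H X} (hz : z ∈ W.gr X j) :
    iota W m w (v * z) = v * iota W m w z + (-1 : W.K) ^ j • W.tr X (v * w) • z := by
  have hvw : v * w ∈ W.gr X (2 * X.dim) := by
    have := W.mul_mem hv hw
    rwa [show 1 + (2 * X.dim - 1) = 2 * X.dim by omega] at this
  rw [iota_apply, iota_apply, _root_.map_mul (W.map m), hm v hv, add_mul, add_mul,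
    _root_.map_add (W.push (fst X X))]
  congr 1
  · rw [mul_assoc, W.mul_push]
  · rw [W.comm (W.map_mem (snd X X) hv) (W.map_mem m hz), one_mul, smul_mul_assoc, map_smul,
      mul_assoc, ← _root_.map_mul (W.map (snd X X)), map_mul_snd W m hm hgen hvw, W.push_fst]

lemma iota_one {w : W.H X} (hd : 0 < X.dim) (hw : w ∈ W.gr X (2 * X.dim - 1)) :
    iota W m w 1 = 0 := by
  rw [iota_apply, _root_.map_one, ← _root_.map_one (W.map (fst X X)), W.push_fst,
    W.tr_eq_zero hw (by omega), zero_smul]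

lemma iota_deg_one (hm : ∀ v ∈ W.gr X 1, W.map m v = W.map (fst X X) v + W.map (snd X X) v)
    (hgen : Algebra.adjoin W.K (W.gr X 1 : Set (W.H X)) = ⊤) (hd : 0 < X.dim)
    {w : W.H X} (hw : w ∈ W.gr X (2 * X.dim - 1)) {v : W.H X} (hv : v ∈ W.gr X 1) :
    iota W m w v = W.tr X (v * w) • 1 := by
  have := iota_one_mul W m hm hgen hd hw hv (W.one_mem X)
  rw [mul_one, iota_one W m hd hw, mul_zero, zero_add, pow_zero, one_smul] at this
  exact this

/-- (C) -/
lemma iota_two_mul (hm : ∀ v ∈ W.gr X 1, W.map m v = W.map (fst X X) v + W.map (snd X X) v)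
    (hgen : Algebra.adjoin W.K (W.gr X 1 : Set (W.H X)) = ⊤) (hd : 0 < X.dim)
    {w : W.H X} (hw : w ∈ W.gr X (2 * X.dim - 1)) {a : W.H X} (ha : a ∈ W.gr X 2) {j : ℕ}
    {b : W.H X} (hb : b ∈ W.gr X (2 * j)) :
    iota W m w (a * b) = a * iota W m w b + iota W m w a * b := by
  refine gr_two_induction W hgen
    (P := fun a => iota W m w (a * b) = a * iota W m w b + iota W m w a * b) ?_ ?_ ha
  · intro v hv v' hv'
    rw [mul_assoc, iota_one_mul W m hm hgen hd hw hv (W.mul_mem hv' hb),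
      iota_one_mul W m hm hgen hd hw hv' hb, iota_one_mul W m hm hgen hd hw hv hv',
      iota_deg_one W m hm hgen hd hw hv']
    have h1 : (-1 : W.K) ^ (1 + 2 * j) = -1 := by rw [pow_add, pow_mul]; simp
    have h2 : (-1 : W.K) ^ (2 * j) = 1 := by rw [pow_mul]; simp
    rw [h1, h2, pow_one, one_smul, mul_add, add_mul, smul_mul_assoc, smul_mul_assoc,
      mul_smul_comm, mul_smul_comm, mul_one, smul_mul_assoc, mul_assoc, add_assoc]
  · intro a a' h h'
    rw [add_mul, _root_.map_add, _root_.map_add, h, h', add_mul, add_mul]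
    abel

lemma pow_mem {ξ : W.H X} (hξ : ξ ∈ W.gr X 2) (n : ℕ) : ξ ^ n ∈ W.gr X (2 * n) := by
  induction n with
  | zero => rw [pow_zero]; exact W.one_mem X
  | succ n ih =>
    rw [pow_succ, mul_add]
    exact W.mul_mem ih hξ

lemma iota_pow (hm : ∀ v ∈ W.gr X 1, W.map m v = W.map (fst X X) v + W.map (snd X X) v)
    (hgen : Algebra.adjoin W.K (W.gr X 1 : Set (W.H X)) = ⊤) (hd : 0 < X.dim)
    {w : W.H X} (hw : w ∈ W.gr X (2 * X.dim - 1)) {ξ : W.H X} (hξ : ξ ∈ W.gr X 2) (n : ℕ) :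
    iota W m w (ξ ^ (n + 1)) = ((n : W.K) + 1) • (ξ ^ n * iota W m w ξ) := by
  induction n with
  | zero => simp
  | succ n ih =>
    rw [pow_succ', iota_two_mul W m hm hgen hd hw hξ (pow_mem W hξ (n + 1)), ih,
      ← W.even_comm (pow_mem W hξ (n + 1)), mul_smul_comm, ← mul_assoc, ← pow_succ', Nat.cast_succ,
      add_smul ((n : W.K) + 1) (1 : W.K) (ξ ^ (n + 1) * iota W m w ξ), one_smul]

/-- (D) -/
lemma tr_smul_pow (hm : ∀ v ∈ W.gr X 1, W.map m v = W.map (fst X X) v + W.map (snd X X) v)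
    (hgen : Algebra.adjoin W.K (W.gr X 1 : Set (W.H X)) = ⊤) (hd : 0 < X.dim)
    {w : W.H X} (hw : w ∈ W.gr X (2 * X.dim - 1)) {ξ : W.H X} (hξ : ξ ∈ W.gr X 2)
    {x : W.H X} (hx : x ∈ W.gr X 1)
    (h : x * (ξ ^ (X.dim - 1) * iota W m w ξ) = 0) :
    W.tr X (x * w) • ξ ^ X.dim = 0 := by
  have h1 : x * ξ ^ X.dim = 0 := by
    have := W.mul_mem hx (pow_mem W hξ X.dim)
    rw [W.gr_eq_bot X _ (by omega), Submodule.mem_bot] at this
    exact this
  have h2 := iota_one_mul W m hm hgen hd hw hx (pow_mem W hξ X.dim)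
  have h3 := iota_pow W m hm hgen hd hw hξ (X.dim - 1)
  rw [show X.dim - 1 + 1 = X.dim by omega] at h3
  rw [h1, _root_.map_zero, h3, mul_smul_comm, h, smul_zero, zero_add, pow_mul] at h2
  simpa using h2.symm

lemma eq_zero_of_mul_pow
    (hm : ∀ v ∈ W.gr X 1, W.map m v = W.map (fst X X) v + W.map (snd X X) v)
    (hgen : Algebra.adjoin W.K (W.gr X 1 : Set (W.H X)) = ⊤) (hd : 0 < X.dim)
    {ξ : W.H X} (hξ : ξ ∈ W.gr X 2) (htr : W.tr X (ξ ^ X.dim) ≠ 0)
    {x : W.H X} (hx : x ∈ W.gr X 1) (h : x * ξ ^ (X.dim - 1) = 0) : x = 0 := by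
  refine W.eq_zero_of_gr (i := 1) (l := 2 * X.dim - 1) (by omega) hx fun w hw => ?_
  have h1 := tr_smul_pow W m hm hgen hd hw hξ hx (by rw [← mul_assoc, h, zero_mul])
  have h2 := congrArg (W.tr X) h1
  rw [map_smul, _root_.map_zero, smul_eq_mul] at h2
  exact (mul_eq_zero.1 h2).resolve_right htr

/-- The first claim. -/
lemma lefschetz (hm : ∀ v ∈ W.gr X 1, W.map m v = W.map (fst X X) v + W.map (snd X X) v)
    (hgen : Algebra.adjoin W.K (W.gr X 1 : Set (W.H X)) = ⊤) (hd : 0 < X.dim)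
    {ξ : W.H X} (hξ : ξ ∈ W.gr X 2) (htr : W.tr X (ξ ^ X.dim) ≠ 0)
    {x : W.H X} (hx : x ∈ W.gr X 1)
    (h : ∀ y ∈ W.gr X 1, W.tr X (x * y * ξ ^ (X.dim - 1)) = 0) : x = 0 := by
  refine eq_zero_of_mul_pow W m hm hgen hd hξ htr hx ?_
  have h1 : x * ξ ^ (X.dim - 1) ∈ W.gr X (1 + 2 * (X.dim - 1)) :=
    W.mul_mem hx (pow_mem W hξ _)
  refine W.eq_zero_of_gr (l := 1) (by omega) h1 fun y hy => ?_
  rw [mul_assoc, W.even_comm (pow_mem W hξ _), ← mul_assoc]
  exact h y hy

/-- Poincare duality in degree one. -/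
lemma exists_dual {n : ℕ} (e : Module.Basis (Fin n) W.K (W.gr X 1)) (hd : 0 < X.dim)
    (c : Fin n → W.K) :
    ∃ w ∈ W.gr X (2 * X.dim - 1), ∀ i, W.tr X ((e i : W.H X) * w) = c i := by
  let B : W.gr X 1 →ₗ[W.K] W.gr X (2 * X.dim - 1) →ₗ[W.K] W.K :=
    LinearMap.mk₂ W.K (fun x w => W.tr X ((x : W.H X) * (w : W.H X)))
      (by intro a b c; simp [add_mul]) (by intro a b c; simp)
      (by intro a b c; simp [mul_add]) (by intro a b c; simp)
  have hB : Function.Injective B := by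
    rw [injective_iff_map_eq_zero]
    intro x hx
    apply Subtype.ext
    refine W.eq_zero_of_gr (i := 1) (l := 2 * X.dim - 1) (by omega) x.2 fun w hw => ?_
    exact LinearMap.congr_fun hx ⟨w, hw⟩
  have hs : Function.Surjective B.flip := LinearMap.flip_surjective_iff₁.2 hB
  obtain ⟨w, hw⟩ := hs (e.constr W.K c)
  refine ⟨w, w.2, fun i => ?_⟩
  have h1 := LinearMap.congr_fun hw (e i)
  rw [Module.Basis.constr_basis] at h1
  exact h1

/-- The element of degree `(1, 1)` given by a matrix. -/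
noncomputable def two {n : ℕ} (e : Module.Basis (Fin n) W.K (W.gr X 1))
    (Q : Matrix (Fin n) (Fin n) W.K) : W.H (X.prod X) :=
  ∑ i, ∑ j, Q i j • (W.map (fst X X) (e i : W.H X) * W.map (snd X X) (e j : W.H X))

lemma two_add {n : ℕ} (e : Module.Basis (Fin n) W.K (W.gr X 1))
    (Q R : Matrix (Fin n) (Fin n) W.K) : two W e (Q + R) = two W e Q + two W e R := by
  simp only [two, Matrix.add_apply, add_smul, Finset.sum_add_distrib]

lemma two_sub {n : ℕ} (e : Module.Basis (Fin n) W.K (W.gr X 1))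
    (Q R : Matrix (Fin n) (Fin n) W.K) : two W e (Q - R) = two W e Q - two W e R := by
  simp only [two, Matrix.sub_apply, sub_smul, Finset.sum_sub_distrib]

lemma two_smul' {n : ℕ} (e : Module.Basis (Fin n) W.K (W.gr X 1)) (c : W.K)
    (Q : Matrix (Fin n) (Fin n) W.K) : two W e (c • Q) = c • two W e Q := by
  simp only [two, Matrix.smul_apply, smul_eq_mul, mul_smul, Finset.smul_sum]

lemma two_vec {n : ℕ} (e : Module.Basis (Fin n) W.K (W.gr X 1)) (a b : Fin n → W.K) :
    two W e (Matrix.vecMulVec a b) =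
      W.map (fst X X) ((∑ i, a i • e i : W.gr X 1) : W.H X) *
        W.map (snd X X) ((∑ i, b i • e i : W.gr X 1) : W.H X) := by
  simp only [two, Matrix.vecMulVec_apply, Submodule.coe_sum, Submodule.coe_smul, map_sum, map_smul,
    Finset.sum_mul_sum, smul_mul_assoc, mul_smul_comm, mul_smul]
  exact Finset.sum_congr rfl fun i _ => Finset.sum_congr rfl fun j _ => smul_comm _ _ _

lemma push_two {n : ℕ} (e : Module.Basis (Fin n) W.K (W.gr X 1))
    (Q : Matrix (Fin n) (Fin n) W.K) (w : W.H X) :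
    W.push (fst X X) (two W e Q * W.map (snd X X) w) =
      ((∑ i, (Q.mulVec fun j => W.tr X ((e j : W.H X) * w)) i • e i : W.gr X 1) : W.H X) := by
  simp only [two, Finset.sum_mul, map_sum, smul_mul_assoc, map_smul, Submodule.coe_sum,
    Submodule.coe_smul, Matrix.mulVec, dotProduct, Finset.sum_smul, mul_smul]
  refine Finset.sum_congr rfl fun i _ => Finset.sum_congr rfl fun j _ => ?_
  rw [mul_assoc, ← _root_.map_mul (W.map (snd X X)), W.push_fst]

/-- The matrix of an element of degree `(1, 1)` is unique. -/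
lemma two_inj {n : ℕ} (e : Module.Basis (Fin n) W.K (W.gr X 1)) (hd : 0 < X.dim)
    {Q : Matrix (Fin n) (Fin n) W.K} (h : two W e Q = 0) : Q = 0 := by
  have h1 : ∀ c : Fin n → W.K, Q.mulVec c = 0 := by
    intro c
    obtain ⟨w, hw, hwc⟩ := exists_dual W e hd c
    have h2 := push_two W e Q w
    rw [h, zero_mul, _root_.map_zero] at h2
    have h3 : (∑ i, (Q.mulVec fun j => W.tr X ((e j : W.H X) * w)) i • e i : W.gr X 1) = 0 :=
      Subtype.ext h2.symm
    have h4 := Fintype.linearIndependent_iff.1 e.linearIndependent _ h3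
    rw [show (fun j => W.tr X ((e j : W.H X) * w)) = c from funext hwc] at h4
    exact funext h4
  ext i j
  have h2 := congrFun (h1 (Pi.single j 1)) i
  simpa using h2

/-- The matrix of the primitive part of `m^* ξ`. -/
lemma exists_matrix (hm : ∀ v ∈ W.gr X 1, W.map m v = W.map (fst X X) v + W.map (snd X X) v)
    (hgen : Algebra.adjoin W.K (W.gr X 1 : Set (W.H X)) = ⊤) {n : ℕ}
    (e : Module.Basis (Fin n) W.K (W.gr X 1)) {ξ : W.H X} (hξ : ξ ∈ W.gr X 2) :
    ∃ Q : Matrix (Fin n) (Fin n) W.K, Q.transpose = -Q ∧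
      W.map m ξ - W.map (fst X X) ξ - W.map (snd X X) ξ = two W e Q := by
  refine gr_two_induction W hgen (P := fun ξ => ∃ Q : Matrix (Fin n) (Fin n) W.K,
    Q.transpose = -Q ∧ W.map m ξ - W.map (fst X X) ξ - W.map (snd X X) ξ = two W e Q) ?_ ?_ hξ
  · intro a ha b hb
    refine ⟨Matrix.vecMulVec (e.repr ⟨a, ha⟩) (e.repr ⟨b, hb⟩) -
      Matrix.vecMulVec (e.repr ⟨b, hb⟩) (e.repr ⟨a, ha⟩), ?_, ?_⟩
    · ext i j
      simp only [Matrix.transpose_apply, Matrix.sub_apply, Matrix.vecMulVec_apply,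
        Matrix.neg_apply]
      ring
    · rw [two_sub, two_vec, two_vec, e.sum_repr, e.sum_repr, _root_.map_mul (W.map m), hm a ha,
        hm b hb, _root_.map_mul (W.map (fst X X)), _root_.map_mul (W.map (snd X X)), mul_add,
        add_mul, add_mul,
        W.comm (W.map_mem (snd X X) ha) (W.map_mem (fst X X) hb)]
      simp only [mul_one, pow_one, neg_smul, one_smul]
      abel
  · rintro a b ⟨Q, hQ, hQ'⟩ ⟨R, hR, hR'⟩
    refine ⟨Q + R, ?_, ?_⟩
    · rw [Matrix.transpose_add, hQ, hR, neg_add]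
    · rw [two_add, ← hQ', ← hR', _root_.map_add, _root_.map_add, _root_.map_add]
      abel

lemma iota_eq (hd : 0 < X.dim) {w : W.H X} (hw : w ∈ W.gr X (2 * X.dim - 1)) {n : ℕ}
    (e : Module.Basis (Fin n) W.K (W.gr X 1)) {ξ : W.H X} (hξ : ξ ∈ W.gr X 2)
    {Q : Matrix (Fin n) (Fin n) W.K}
    (hQ : W.map m ξ - W.map (fst X X) ξ - W.map (snd X X) ξ = two W e Q) :
    iota W m w ξ =
      ((∑ i, (Q.mulVec fun j => W.tr X ((e j : W.H X) * w)) i • e i : W.gr X 1) : W.H X) := by
  rw [← push_two, ← hQ, sub_mul, sub_mul, map_sub, map_sub, W.push_fst,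
    W.tr_eq_zero hw (by omega), zero_smul, sub_zero, ← _root_.map_mul (W.map (snd X X))]
  have h1 := W.push_fst (1 : W.H X) (ξ * w)
  rw [_root_.map_one, one_mul, W.tr_eq_zero (W.mul_mem hξ hw) (by omega), zero_smul] at h1
  rw [h1, sub_zero, iota_apply]

lemma isUnit_matrix (hm : ∀ v ∈ W.gr X 1, W.map m v = W.map (fst X X) v + W.map (snd X X) v)
    (hgen : Algebra.adjoin W.K (W.gr X 1 : Set (W.H X)) = ⊤) (hd : 0 < X.dim) {n : ℕ}
    (e : Module.Basis (Fin n) W.K (W.gr X 1)) {ξ : W.H X} (hξ : ξ ∈ W.gr X 2)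
    (htr : W.tr X (ξ ^ X.dim) ≠ 0) {Q : Matrix (Fin n) (Fin n) W.K}
    (hQ : W.map m ξ - W.map (fst X X) ξ - W.map (snd X X) ξ = two W e Q) : IsUnit Q := by
  rw [← Matrix.mulVec_injective_iff_isUnit]
  intro c c' hcc
  rw [← sub_eq_zero]
  rw [← sub_eq_zero, ← Matrix.mulVec_sub] at hcc
  obtain ⟨w, hw, hwc⟩ := exists_dual W e hd (c - c')
  have h1 := iota_eq W m hd hw e hξ hQ
  rw [show (fun j => W.tr X ((e j : W.H X) * w)) = c - c' from funext hwc, hcc] at h1
  have h0 : iota W m w ξ = 0 := by rw [h1]; simp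
  ext i
  have h2 := tr_smul_pow W m hm hgen hd hw hξ (e i).2 (by rw [h0, mul_zero, mul_zero])
  have h3 := congrArg (W.tr X) h2
  rw [map_smul, _root_.map_zero, smul_eq_mul, hwc] at h3
  exact (mul_eq_zero.1 h3).resolve_right htr

/-- The matrix identity behind the invariance of the Riemann form. -/
lemma matrix_aux {K : Type v} [Field K] {n : ℕ} {Q R : Matrix (Fin n) (Fin n) K} {c : K}
    (hQ : IsUnit Q) (hR : IsUnit R) (h : R * Q * R.transpose = c • Q) :
    R.transpose * Q⁻¹ * R = c • Q⁻¹ := by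
  have hQd := (Matrix.isUnit_iff_isUnit_det Q).1 hQ
  have hA : IsUnit (R * Q) := hR.mul hQ
  have h1 : (R * Q) * (R.transpose * Q⁻¹) = c • 1 := by
    rw [← mul_assoc, h, smul_mul_assoc, Matrix.mul_nonsing_inv _ hQd]
  have h2 : (R.transpose * Q⁻¹) * (R * Q) = c • 1 := by
    apply hA.mul_right_injective
    change (R * Q) * ((R.transpose * Q⁻¹) * (R * Q)) = (R * Q) * (c • 1)
    rw [← mul_assoc, h1, smul_mul_assoc, one_mul, mul_smul_comm, mul_one]
  calc R.transpose * Q⁻¹ * R = (R.transpose * Q⁻¹) * (R * Q) * Q⁻¹ := by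
        rw [mul_assoc, mul_assoc (R.transpose * Q⁻¹), mul_assoc R, Matrix.mul_nonsing_inv _ hQd,
          mul_one, mul_assoc]
    _ = c • Q⁻¹ := by rw [h2, smul_mul_assoc, one_mul]

lemma two_map {n : ℕ} (e : Module.Basis (Fin n) W.K (W.gr X 1))
    (Q : Matrix (Fin n) (Fin n) W.K) (b : Module.End W.K (W.gr X 1)) :
    ∑ i, ∑ j, Q i j • (W.map (fst X X) (b (e i) : W.H X) * W.map (snd X X) (b (e j) : W.H X)) =
      two W e (LinearMap.toMatrix e e b * Q * (LinearMap.toMatrix e e b).transpose) := by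
  have h1 : ∀ i, b (e i) = ∑ l, LinearMap.toMatrix e e b l i • e l := by
    intro i
    rw [← e.sum_repr (b (e i))]
    refine Finset.sum_congr rfl fun l _ => ?_
    rw [LinearMap.toMatrix_apply]
  have h2 : ∀ i j, W.map (fst X X) (b (e i) : W.H X) * W.map (snd X X) (b (e j) : W.H X) =
      two W e (Matrix.vecMulVec (fun l => LinearMap.toMatrix e e b l i)
        (fun l => LinearMap.toMatrix e e b l j)) := by
    intro i j
    rw [two_vec, ← h1, ← h1]
  have h3 : ∀ (s : Finset (Fin n)) (M : Fin n → Matrix (Fin n) (Fin n) W.K),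
      two W e (∑ i ∈ s, M i) = ∑ i ∈ s, two W e (M i) := by
    intro s M
    induction s using Finset.cons_induction with
    | empty => simp [two]
    | cons a s ha ih => rw [Finset.sum_cons, Finset.sum_cons, two_add, ih]
  simp only [h2, ← two_smul', ← h3]
  congr 1
  ext l l'
  simp only [Matrix.sum_apply, Matrix.smul_apply, Matrix.vecMulVec_apply, smul_eq_mul,
    Matrix.mul_apply, Matrix.transpose_apply, Finset.sum_mul]
  rw [Finset.sum_comm]
  refine Finset.sum_congr rfl fun i _ => Finset.sum_congr rfl fun j _ => ?_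
  ring

end

/-- The polarization. -/
theorem av2 : S_av2.{u, v} := by
  intro k _ 𝒱 ops W X m hd hm hgen ξ hξ htr
  refine ⟨fun x hx h => lefschetz W m hm hgen hd hξ htr hx h, ?_⟩
  have e := Module.finBasis W.K (W.gr X 1)
  generalize Module.finrank W.K (W.gr X 1) = n at e
  obtain ⟨Q, hQ, hQ'⟩ := exists_matrix W m hm hgen e hξ
  have hu := isUnit_matrix W m hm hgen hd e hξ htr hQ'
  have hQd := (Matrix.isUnit_iff_isUnit_det Q).1 hu
  have hdet : IsUnit Q.transpose.det := by rw [Matrix.det_transpose]; exact hQd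
  have he' : ∀ i, (e.map (Matrix.toLinearEquiv e Q.transpose hdet)) i = ∑ j, Q i j • e j := by
    intro i
    rw [Module.Basis.map_apply]
    exact Matrix.toLin_self e e Q.transpose i
  have hψ : ∀ i j, Matrix.toLinearMap₂ e e (-Q⁻¹) (e i) (e j) = -Q⁻¹ i j := fun i j =>
    Matrix.toLinearMap₂_apply_basis e e (-Q⁻¹) i j
  have hinv : (Q⁻¹).transpose = -Q⁻¹ := by
    rw [Matrix.transpose_nonsing_inv, hQ]
    apply Matrix.inv_eq_right_inv
    rw [neg_mul_neg, Matrix.mul_nonsing_inv _ hQd]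
  refine ⟨n, e, e.map (Matrix.toLinearEquiv e Q.transpose hdet),
    Matrix.toLinearMap₂ e e (-Q⁻¹), ?_, ?_, ?_, ?_⟩
  · intro i j
    rw [he', map_sum]
    simp only [map_smul, hψ, smul_eq_mul]
    have h1 : (Q⁻¹ * Q) i j = if i = j then 1 else 0 := by
      rw [Matrix.nonsing_inv_mul _ hQd, Matrix.one_apply]
    rw [← h1, Matrix.mul_apply]
    refine Finset.sum_congr rfl fun l _ => ?_
    have h2 : Q j l = -Q l j := by
      have := congrFun (congrFun hQ l) j
      simpa using this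
    rw [h2]
    ring
  · intro x y
    have h1 : (Matrix.toLinearMap₂ e e (-Q⁻¹)).flip = -Matrix.toLinearMap₂ e e (-Q⁻¹) := by
      refine e.ext fun i => e.ext fun j => ?_
      rw [LinearMap.flip_apply, hψ, LinearMap.neg_apply, LinearMap.neg_apply, hψ]
      have := congrFun (congrFun hinv i) j
      rw [Matrix.transpose_apply, Matrix.neg_apply] at this
      rw [this]
    have h2 := LinearMap.congr_fun (LinearMap.congr_fun h1 x) y
    rw [LinearMap.flip_apply] at h2
    rw [h2]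
    rfl
  · rw [hQ', two]
    refine Finset.sum_congr rfl fun i _ => ?_
    rw [he']
    simp only [Submodule.coe_sum, Submodule.coe_smul, map_sum, map_smul, Finset.mul_sum,
      mul_smul_comm]
  · intro B B₂ c b h1 h2 h3 hB hb hbs
    have h4 : B₂ (two W e Q) = c • two W e Q := by
      rw [← hQ', map_sub, map_sub, h1, h2, h3, hB, map_smul, map_smul, map_smul, smul_sub,
        smul_sub]
    have h5 : B₂ (two W e Q) =
        two W e (LinearMap.toMatrix e e b * Q * (LinearMap.toMatrix e e b).transpose) := by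
      rw [← two_map]
      simp only [two, map_sum, map_smul, _root_.map_mul, h1, h2, hb]
    have h6 : LinearMap.toMatrix e e b * Q * (LinearMap.toMatrix e e b).transpose = c • Q := by
      rw [← sub_eq_zero]
      apply two_inj W e hd
      rw [two_sub, two_smul', ← h5, h4, sub_self]
    have hbi : Function.Injective b := LinearMap.injective_iff_surjective.2 hbs
    have hR : IsUnit (LinearMap.toMatrix e e b) := by
      have : IsUnit b := (Module.End.isUnit_iff b).2 ⟨hbi, hbs⟩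
      exact this.map (LinearMap.toMatrixAlgEquiv e)
    have h7 := matrix_aux hu hR h6
    have h8 : (Matrix.toLinearMap₂ e e (-Q⁻¹)).compl₁₂ b b = c • Matrix.toLinearMap₂ e e (-Q⁻¹) := by
      apply (LinearMap.toMatrix₂ e e).injective
      rw [LinearMap.toMatrix₂_compl₁₂ e e e e, map_smul, LinearMap.toMatrix₂_toLinearMap₂,
        mul_neg, neg_mul, h7, smul_neg]
    intro x y
    have h9 := LinearMap.congr_fun (LinearMap.congr_fun h8 x) y
    exact h9

end Pool.Agent.Y149.KN
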