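import Pool.Agent.Y150.KN.Stm4

/-!
# Composition and transposition of algebraic correspondences (`S_op4`, `S_op5`)
-/

set_option autoImplicit false

open CategoryTheory AlgebraicGeometry

namespace Pool.Agent.Y149.KN

universe u v w

open Pool.Agent.H914 VarClass Obj Pool.Agent.Y150.KN

section

variable {k : Type u} [Field k] {𝒱 : VarClass k} {ops : CycleOps 𝒱} (W : Coh.{u, v} ops)
  {X Y : 𝒱.Obj}

lemma tr_sgn {j : ℕ} {v : W.H X} (hv : v ∈ W.gr X j) : (-1 : W.K) ^ j * W.tr X v = W.tr X v := by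
  by_cases hj : j = 2 * X.dim
  · rw [hj, pow_mul]; simp
  · rw [W.tr_eq_zero hv hj, mul_zero]

lemma tr_push_one (f : X ⟶ Y) (z : W.H X) : W.tr Y (W.push f z) = W.tr X z := by
  have h := W.tr_push f z 1
  rwa [_root_.map_one, mul_one, mul_one] at h

/-- The projection to the factors `1, 2`. -/
noncomputable def qa (X : 𝒱.Obj) : X.prod (X.prod X) ⟶ X.prod X :=
  Obj.lift (fst X (X.prod X)) (snd X (X.prod X) ≫ fst X X)

/-- The projection to the factors `1, 3`. -/
noncomputable def qc (X : 𝒱.Obj) : X.prod (X.prod X) ⟶ X.prod X :=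
  Obj.lift (fst X (X.prod X)) (snd X (X.prod X) ≫ snd X X)

lemma qa_fst (X : 𝒱.Obj) : qa X ≫ fst X X = fst X (X.prod X) := Obj.lift_fst _ _
lemma qa_snd (X : 𝒱.Obj) : qa X ≫ snd X X = snd X (X.prod X) ≫ fst X X := Obj.lift_snd _ _
lemma qc_fst (X : 𝒱.Obj) : qc X ≫ fst X X = fst X (X.prod X) := Obj.lift_fst _ _
lemma qc_snd (X : 𝒱.Obj) : qc X ≫ snd X X = snd X (X.prod X) ≫ snd X X := Obj.lift_snd _ _

lemma push_qa (v : W.H X) :
    W.push (qa X) (W.map (snd X (X.prod X) ≫ snd X X) v) = W.tr X v • 1 := by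
  refine W.gr_induction (p := fun v => W.push (qa X) (W.map (snd X (X.prod X) ≫ snd X X) v) =
    W.tr X v • 1) ?_ ?_ v
  · intro j v hv
    apply W.tr_ext
    intro c
    refine W.kunneth_induction (p := fun c =>
      W.tr (X.prod X) (W.push (qa X) (W.map (snd X (X.prod X) ≫ snd X X) v) * c) =
        W.tr (X.prod X) (W.tr X v • 1 * c)) ?_ ?_ c
    · intro a b ha hb
      rw [mul_add, mul_add, _root_.map_add, _root_.map_add, ha, hb]
    · intro i l s hs t ht
      rw [W.tr_push, smul_mul_assoc, one_mul, map_smul, W.tr_prod,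
        _root_.map_mul (W.map (qa X)), ← W.map_comp, ← W.map_comp, qa_fst, qa_snd, W.tr_rot (W.map_mem _ hv), mul_assoc, W.map_comp _ _ t,
        W.map_comp _ _ v, ← _root_.map_mul (W.map (snd X (X.prod X))), W.tr_prod, W.tr_prod,
        smul_eq_mul]
      have h := tr_sgn W hv
      calc (-1 : W.K) ^ j * (W.tr X s * (W.tr X t * W.tr X v)) =
            ((-1 : W.K) ^ j * W.tr X v) * (W.tr X s * W.tr X t) := by ring
        _ = W.tr X v * (W.tr X s * W.tr X t) := by rw [h]
  · intro a b ha hb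
    rw [_root_.map_add, _root_.map_add, ha, hb, _root_.map_add, add_smul]

/-- Base change. -/
lemma base_change (e : W.H (X.prod X)) :
    W.map (snd X X) (W.push (fst X X) e) = W.push (qa X) (W.map (snd X (X.prod X)) e) := by
  refine W.kunneth_induction (p := fun e => W.map (snd X X) (W.push (fst X X) e) =
    W.push (qa X) (W.map (snd X (X.prod X)) e)) ?_ ?_ e
  · intro a b ha hb
    rw [_root_.map_add, _root_.map_add, _root_.map_add, _root_.map_add, ha, hb]
  · intro i j a _ b _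
    rw [W.push_fst, map_smul, _root_.map_mul, ← W.map_comp, ← W.map_comp, ← qa_snd,
      W.map_comp, W.mul_push, push_qa, mul_smul_comm, mul_one]

lemma op_comp (γ γ' : W.H (X.prod X)) :
    op W (W.push (qc X) (W.map (qa X) γ * W.map (snd X (X.prod X)) γ')) = op W γ * op W γ' := by
  ext x
  rw [Module.End.mul_apply, op_apply, op_apply, op_apply, base_change, ← W.mul_push,
    ← W.push_mul, ← W.push_comp, ← W.push_comp, qc_fst, qa_fst, ← W.map_comp, qc_snd,
    _root_.map_mul (W.map (snd X (X.prod X))), W.map_comp, mul_assoc]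

theorem op4 : S_op4.{u, v} := by
  intro k _ 𝒱 ops W X γ hγ γ' hγ'
  exact ⟨_, W.push_mem_alg _ (W.mul_mem_alg (W.map_mem_alg _ hγ) (W.map_mem_alg _ hγ')),
    op_comp W γ γ'⟩

/-- The exchange of the factors. -/
noncomputable def sw (X : 𝒱.Obj) : X.prod X ⟶ X.prod X := Obj.lift (snd X X) (fst X X)

lemma sw_fst (X : 𝒱.Obj) : sw X ≫ fst X X = snd X X := Obj.lift_fst _ _
lemma sw_snd (X : 𝒱.Obj) : sw X ≫ snd X X = fst X X := Obj.lift_snd _ _

lemma tr_sw (e : W.H (X.prod X)) : W.tr (X.prod X) (W.map (sw X) e) = W.tr (X.prod X) e := by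
  refine W.kunneth_induction (p := fun e =>
    W.tr (X.prod X) (W.map (sw X) e) = W.tr (X.prod X) e) ?_ ?_ e
  · intro a b ha hb
    rw [_root_.map_add, _root_.map_add, _root_.map_add, ha, hb]
  · intro i j a ha b hb
    rw [_root_.map_mul, ← W.map_comp, ← W.map_comp, sw_fst, sw_snd, W.tr_rot (W.map_mem _ ha),
      W.tr_prod, W.tr_prod]
    calc (-1 : W.K) ^ i * (W.tr X b * W.tr X a) = ((-1 : W.K) ^ i * W.tr X a) * W.tr X b := by ring
      _ = W.tr X a * W.tr X b := by rw [tr_sgn W ha]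

theorem op5 : S_op5.{u, v} := by
  intro k _ 𝒱 ops W X
  constructor
  · refine ⟨W.push (diag X) 1, W.push_mem_alg _ (W.one_mem_alg X), ?_⟩
    ext x
    have e1 : diag X ≫ snd X X = 𝟙 X := Obj.lift_snd _ _
    have e2 : diag X ≫ fst X X = 𝟙 X := Obj.lift_fst _ _
    rw [op_apply, ← W.push_mul, ← W.push_comp, ← W.map_comp, e1, e2, W.push_id, W.map_id,
      one_mul, Module.End.one_apply]
  · intro γ hγ
    refine ⟨W.map (sw X) γ, W.map_mem_alg _ hγ, fun x y => ?_⟩
    have h1 : W.tr X (x * W.push (fst X X) (W.map (sw X) γ * W.map (snd X X) y)) =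
        W.tr _ (W.map (sw X) (γ * W.map (snd X X) x * W.map (fst X X) y)) := by
      rw [← W.mul_push, tr_push_one, ← mul_assoc, ← W.alg_comm (W.map_mem_alg (sw X) hγ),
        _root_.map_mul (W.map (sw X)), _root_.map_mul (W.map (sw X)), ← W.map_comp,
        ← W.map_comp, sw_fst, sw_snd]
    rw [op_apply, op_apply, h1, tr_sw, W.tr_push]

end

end Pool.Agent.Y149.KN
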